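import Pool.Agent.U707.LI.All
import Pool.Agent.U707.LI.ES

/-!
# The abelian variety of a Hilbert newform and point counts with coefficients

`K` is a number field (for instance totally real), `M` the field of coefficients of a Hilbert newform
`f` of parallel weight two, `a v` in `M` its Hecke eigenvalues, `R t` for `t : M → ℚ̄_p` the
representations attached to the conjugates of `f`, assumed pure of weight one and irreducible on
every open subgroup (`f` without complex multiplication). `X_k` are finitely many smooth projective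
varieties over `K`, of any dimensions. If `a_v = ∑ c_k #X_k(𝔽_v)`, with coefficients `c_k` in the
field `M`, for the places `v` of a set of positive upper density, then for EVERY `t` the
representation `R t` is a subquotient of the tensor product of some `H^1(X_k)`, `c_k ≠ 0`, and the
permutation representation of a finite Galois extension `L` of `K`, that is, of `H^1(X_k × L)`, the
dual of the Tate module of an abelian variety over `K`. Inner twists are allowed. (With Faltings'
theorem, and the real places, this gives the abelian variety associated with `f`; this last step is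
known, and not part of the Lean.)

Parts of the proof are by helper140, helper784, helper187, helper612, helper200 (see
`Pool.Agent.U707.LI.All`).
-/

set_option autoImplicit false

namespace Pool.Agent.Results.MP_6cbef8_nt.CoefficientsFromCounts

open NumberField IsDedekindDomain Module Pool.Agent.W401.Cheb Pool.Agent.U707 Pool.Agent.U707.LI

/-- **Point counts with coefficients in the field of the newform.** -/
theorem result {K : Type} [Field K] [NumberField K] {p : ℕ} [Fact p.Prime]
    (θ : PadicAlgCl p ≃+* ℂ)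
    -- the newform and its conjugates
    {M : Type} [Field M] (a : HeightOneSpectrum (𝓞 K) → M)
    (R : (M →+* PadicAlgCl p) → LI.Rep K (PadicAlgCl p))
    (hR : ∀ t, (R t).StronglyIrreducible) (hRw : ∀ t, (R t).IsPure θ 1)
    (ha : ∀ t, ∃ B : Set (HeightOneSpectrum (𝓞 K)), B.Finite ∧ ∀ v ∉ B, ∀ φ, GeoFrob v φ →
      (R t).tr φ = t (a v))
    -- the varieties
    {κ : Type} [Fintype κ] (d : κ → ℕ) (H : κ → ℕ → LI.Rep K (PadicAlgCl p))
    (hH : ∀ k, ∀ j : ℕ, (H k j).IsPure θ j) (cnt : κ → HeightOneSpectrum (𝓞 K) → ℤ)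
    (hcnt : ∃ B : Set (HeightOneSpectrum (𝓞 K)), B.Finite ∧ ∀ v ∉ B, ∀ φ, GeoFrob v φ → ∀ k,
      (cnt k v : PadicAlgCl p) = ∑ j ∈ Finset.range (2 * d k + 1), (-1) ^ j * (H k j).tr φ)
    -- the relation
    (c : κ → M) {P : Set (HeightOneSpectrum (𝓞 K))} (hP : PosDensity P)
    (h : ∀ v ∈ P, a v = ∑ k, c k * cnt k v) (t : M →+* PadicAlgCl p) :
    ∃ k, c k ≠ 0 ∧ ∃ U : Subgroup (GK K), U.Normal ∧ IsOpen (U : Set (GK K)) ∧
      SubquotOn ⊤ (R t).ρ (perm U (H k 1).ρ) := by
  classical
  obtain ⟨B, hB, hcnt⟩ := hcnt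
  obtain ⟨B', hB', ha⟩ := ha t
  have hP' : PosDensity (P \ (B ∪ B')) :=
    hP.mono (hB.union hB') fun v hv hvB => ⟨hv, hvB⟩
  obtain ⟨⟨k, j⟩, hc, U, hUn, hUo, hsU, hs⟩ := geo sHAAR sCHEB sTRANS sIND sFR (R t) (hR t)
    (fun x : Σ k, Fin (2 * d k + 1) => H x.1 x.2)
    (fun x => t (c x.1) * (-1) ^ (x.2 : ℕ)) hP' (by
      rintro v ⟨hv, hvB⟩ φ hφ
      rw [ha v (fun h => hvB (Or.inr h)) φ hφ, h v hv, map_sum, Fintype.sum_sigma]
      refine Finset.sum_congr rfl fun k _ => ?_
      rw [map_mul, map_intCast, hcnt v (fun h => hvB (Or.inl h)) φ hφ k, Finset.mul_sum,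
        Finset.sum_range]
      refine Finset.sum_congr rfl fun j _ => ?_
      ring)
  have := hUn
  have hw : ((j : ℕ) : ℤ) = 1 :=
    (weight_eq θ (R t) (H k j) (hR t).1 (hRw t) (hH k j) hP U hUo hsU).symm
  have hj : (j : ℕ) = 1 := by exact_mod_cast hw
  obtain ⟨j, hj'⟩ := j
  change j = 1 at hj
  subst hj
  exact ⟨k, fun h0 => hc (by simp only [h0, map_zero, zero_mul]), U, hUn, hUo, hs⟩

end Pool.Agent.Results.MP_6cbef8_nt.CoefficientsFromCounts
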