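import Mathlib

/-!
# Abelian varieties attached to Hilbert newforms: the level one case over large fields is the general case

The objects of the problem (number fields, irreducible `ℓ`-adic representations of their Galois groups, simple abelian
varieties, Hilbert newforms) are modelled by a structure `Data`, the known theorems about them which are used by a structure
`Facts`.  The theorem says that the following are equivalent: the Eichler-Shimura conjecture (`Q1` of the problem); its case of
newforms of level one over the totally real fields which contain a given solvable totally real field `F₀` (for example all square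
roots of the integers up to `B`); its case of primitive newforms, i.e. those which do not come, after any finite extension, from
a totally real field of smaller degree.  The engine is a descent theorem: it is enough to find the representation of `f`,
restricted to some number field `L`, in an abelian variety over `L`; then there is an abelian variety over `K` with all
properties.

Proof. Let a representation `ρ` attached to `f` be a constituent of a simple abelian variety `A` over `K`, let `D` be its division
algebra with center `Z` and index `m`. By Faltings the constituents of `V_ℓ(A)` are pairwise different representations `W σ`, one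
for each embedding `σ` of `Z`, each with multiplicity `m`, and with traces `σ (z v)`. As they are different, the `z v` generate `Z`
(otherwise two embeddings agree on all of them); by strong multiplicity one the eigenvalues `a v` generate `M_f`. Since
`ρ = W σ₀`, the fields `σ₀ Z` and `τ₀ M_f` are equal, which gives an isomorphism of `Z` with `M_f` carrying `z v` to `a v`, and
by Chebotarev all `W σ` are the representations of the conjugates of `f`. So `dim A = m [Z : ℚ]`; but `D` acts on a rational
vector space of dimension `dim A` (real place), so `m ^ 2 [Z : ℚ]` divides `m [Z : ℚ]` and `m = 1`. The general descent follows by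
Weil restriction and Frobenius reciprocity. By base change in a solvable totally real extension every newform becomes a newform
all whose local components are unramified or Steinberg; if there is a Steinberg component the theorem of Zhang applies, otherwise
the level is one.
-/

set_option autoImplicit false

namespace Pool.Agent.Results.MP_6cbef8_nt.LevelOne

open Module Filter

/-- The objects, first part: number fields and Galois representations. -/
structure Fields where
  /-- number fields, contained in a fixed algebraic closure of `ℚ` -/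
  Fld : Type
  /-- inclusion of fields -/
  [ord : PartialOrder Fld]
  /-- the totally real fields -/
  TR : Set Fld
  /-- the Galois extensions of `ℚ` with solvable group -/
  Solvable : Set Fld
  /-- the degree over `ℚ` -/
  deg : Fld → ℕ
  /-- the finite places -/
  Pl : Fld → Type
  /-- the algebraic closure of `ℚ_ℓ` -/
  C : Type
  [fieldC : Field C]
  [charC : CharZero C]
  [closedC : IsAlgClosed C]
  /-- isomorphism classes of irreducible continuous representations of the Galois group of `K` over `C`, unramified at
  almost all places -/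
  Irr : Fld → Type
  /-- the dimension of a representation -/
  rk : {K : Fld} → Irr K → ℕ
  /-- the trace of Frobenius at an unramified place -/
  frob : {K : Fld} → Irr K → Pl K → C
  /-- the constituents of the restriction to the Galois group of an extension field -/
  res : {K L : Fld} → K ≤ L → Irr K → Set (Irr L)

attribute [instance] Fields.ord Fields.fieldC Fields.charC Fields.closedC

/-- The objects, second part: simple abelian varieties. -/
structure Varieties extends Fields where
  /-- simple abelian varieties over `K` up to isogeny -/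
  AV : Fld → Type
  /-- the dimension of an abelian variety -/
  dim : {K : Fld} → AV K → ℕ
  /-- the division algebra `D = End⁰(A)` -/
  D : {K : Fld} → AV K → Type
  [divD : ∀ {K : Fld} (A : AV K), DivisionRing (D A)]
  /-- the center of `D` -/
  Z : {K : Fld} → AV K → Type
  [fieldZ : ∀ {K : Fld} (A : AV K), Field (Z A)]
  [numZ : ∀ {K : Fld} (A : AV K), NumberField (Z A)]
  [algD : ∀ {K : Fld} (A : AV K), Algebra (Z A) (D A)]
  /-- the index `m` of `D`, so that `[D : Z] = m ^ 2` -/
  ix : {K : Fld} → AV K → ℕ
  /-- the irreducible constituents of `V_ℓ(A) ⊗ C`: one for each embedding `σ : Z → C`, with multiplicity `m` -/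
  W : {K : Fld} → (A : AV K) → (Z A →ₐ[ℚ] C) → Irr K
  /-- the traces of Frobenius on `V_ℓ(A)`, as elements of `Z` (divided by `m`) -/
  z : {K : Fld} → (A : AV K) → Pl K → Z A

attribute [instance] Varieties.divD Varieties.fieldZ Varieties.numZ Varieties.algD

/-- The objects, third part: Hilbert newforms. -/
structure Data extends Varieties where
  /-- Hilbert newforms over `K` of parallel weight `2` with trivial central character -/
  Form : Fld → Type
  /-- the field generated by the Hecke eigenvalues -/
  M : {K : Fld} → Form K → Type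
  [fieldM : ∀ {K : Fld} (f : Form K), Field (M f)]
  [numM : ∀ {K : Fld} (f : Form K), NumberField (M f)]
  /-- the Hecke eigenvalues -/
  a : {K : Fld} → (f : Form K) → Pl K → M f
  /-- the exponents of the level -/
  lev : {K : Fld} → Form K → Pl K → ℕ
  /-- the representations attached to the conjugates of `f` -/
  rho : {K : Fld} → (f : Form K) → (M f →ₐ[ℚ] C) → Irr K

attribute [instance] Data.fieldM Data.numM

variable (T : Data)

/-- `A` is an abelian variety `A_f` as in the problem: it is simple, the division algebra `End⁰(A)` is a field isomorphic to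
`M_f`, the isomorphism carries the traces of Frobenius to the Hecke eigenvalues, the dimension is `[M_f : ℚ]`, and
`V_ℓ(A) ⊗ C` is the direct sum of the representations attached to the conjugates of `f` (this is equivalent to the equality of
the `L`-functions) -/
def Attached {K : T.Fld} (f : T.Form K) : Prop :=
  ∃ A : T.AV K, T.dim A = finrank ℚ (T.M f) ∧ T.ix A = 1 ∧ Function.Injective (T.W A) ∧ Function.Injective (T.rho f) ∧
    ∃ e : T.Z A ≃ₐ[ℚ] T.M f, (∀ᶠ v in cofinite, e (T.z A v) = T.a f v) ∧
      ∀ τ : T.M f →ₐ[ℚ] T.C, T.W A (τ.comp e.toAlgHom) = T.rho f τ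

/-- Known theorems, first part: the `ℓ`-adic representations of simple abelian varieties. -/
structure FactsFaltings : Prop where
  /-- Chebotarev and Brauer-Nesbitt: the traces of almost all Frobenius elements determine the representation -/
  chebotarev : ∀ {K : T.Fld} (ρ σ : T.Irr K), (∀ᶠ v in cofinite, T.frob ρ v = T.frob σ v) → ρ = σ
  /-- the index of the division algebra -/
  index : ∀ {K : T.Fld} (A : T.AV K), finrank (T.Z A) (T.D A) = T.ix A ^ 2
  /-- Faltings: `End (V_ℓ(A)) = D ⊗ ℚ_ℓ`, so the constituents are pairwise different -/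
  faltings : ∀ {K : T.Fld} (A : T.AV K), Function.Injective (T.W A)
  /-- Faltings: the constituents `W σ` have multiplicity `m`, so the dimension of `V_ℓ(A)` is `2 dim A = m ∑ rk (W σ)` -/
  faltings_dim : ∀ {K : T.Fld} (A : T.AV K), 2 * T.dim A = T.ix A * ∑ᶠ σ, T.rk (T.W A σ)
  /-- the constituents `W σ` have the same dimension -/
  rk_eq : ∀ {K : T.Fld} (A : T.AV K) (σ σ' : T.Z A →ₐ[ℚ] T.C), T.rk (T.W A σ) = T.rk (T.W A σ')
  /-- the constituents `W σ` form a compatible system with coefficients in `Z` (Shimura, Ribet) -/
  traces : ∀ {K : T.Fld} (A : T.AV K) (σ : T.Z A →ₐ[ℚ] T.C), ∀ᶠ v in cofinite, T.frob (T.W A σ) v = σ (T.z A v)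

/-- Known theorems, second part: real places, base change and Weil restriction of abelian varieties. -/
structure FactsRestriction : Prop where
  /-- over a field with a real place `D` acts on the rational vector space `H = H_1(A(ℂ), ℚ)^+` of dimension `dim A` -/
  real_place : ∀ {K : T.Fld}, K ∈ T.TR → ∀ A : T.AV K,
    ∃ (H : Type) (_ : AddCommGroup H) (_ : Module (T.D A) H), finrank (T.D A) H * (finrank (T.Z A) (T.D A) *
      finrank ℚ (T.Z A)) = T.dim A ∧ 0 < T.dim A
  /-- base change of an abelian variety: the constituents of the restriction of `V_ℓ(A)` occur in the simple factors of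
  `A ⊗ L` -/
  extend : ∀ {K L : T.Fld} (h : K ≤ L) (A : T.AV K) (σ : T.Z A →ₐ[ℚ] T.C), ∀ κ ∈ T.res h (T.W A σ),
    ∃ B : T.AV L, κ ∈ Set.range (T.W B)
  /-- Weil restriction and Frobenius reciprocity: a representation of the Galois group of `K`, whose restriction has a
  constituent in `V_ℓ(B)`, is a constituent of `V_ℓ` of the Weil restriction of `B`, so of one of its simple factors -/
  weil : ∀ {K L : T.Fld} (h : K ≤ L) (B : T.AV L) (ρ : T.Irr K), (T.res h ρ ∩ Set.range (T.W B)).Nonempty →
    ∃ A : T.AV K, ρ ∈ Set.range (T.W A)

/-- Known theorems, third part: the representations attached to newforms. -/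
structure FactsForms : Prop where
  /-- the representations attached to Hilbert newforms (Carayol, Taylor, Blasius-Rogawski), they are irreducible of
  dimension two -/
  rk_rho : ∀ {K : T.Fld} (f : T.Form K) (τ : T.M f →ₐ[ℚ] T.C), T.rk (T.rho f τ) = 2
  /-- the traces of Frobenius are the Hecke eigenvalues -/
  frob_rho : ∀ {K : T.Fld} (f : T.Form K) (τ : T.M f →ₐ[ℚ] T.C), ∀ᶠ v in cofinite, T.frob (T.rho f τ) v = τ (T.a f v)
  /-- strong multiplicity one: the eigenvalues at almost all places generate `M_f` -/
  multiplicity_one : ∀ {K : T.Fld} (f : T.Form K) (s : Set (T.Pl K)), s ∈ (cofinite : Filter (T.Pl K)) →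
    IntermediateField.adjoin ℚ (T.a f '' s) = ⊤
  /-- there are newforms only over totally real fields -/
  form_real : ∀ {K : T.Fld}, T.Form K → K ∈ T.TR

/-- Known theorems, fourth part: base change and the theorem of Zhang. -/
structure FactsBaseChange : Prop where
  /-- Langlands' base change in a totally real solvable extension `K'` of `K F₀` which is chosen (Grunewald, Wang) such that
  all local components become unramified or unramified twists of the Steinberg representation -/
  base_change : ∀ F₀ ∈ T.TR ∩ T.Solvable, ∀ {K : T.Fld} (f : T.Form K), ∃ (K' : T.Fld) (h : K ≤ K') (f' : T.Form K'),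
    F₀ ≤ K' ∧ (∀ v, T.lev f' v ≤ 1) ∧ ∀ τ : T.M f →ₐ[ℚ] T.C, ∃ τ' : T.M f' →ₐ[ℚ] T.C,
      T.rho f' τ' ∈ T.res h (T.rho f τ)
  /-- Zhang: the conjecture holds if the degree is odd or some exponent of the level is odd -/
  zhang : ∀ {K : T.Fld} (f : T.Form K), (Odd (T.deg K) ∨ ∃ v, Odd (T.lev f v)) → Attached T f

/-- The known theorems which are used. -/
structure Facts : Prop extends FactsFaltings T, FactsRestriction T, FactsForms T, FactsBaseChange T

variable {T}

/-- the representation of `f`, restricted to some number field `L`, has a constituent in common with an abelian variety -/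
def PotentiallyAbelian {K : T.Fld} (f : T.Form K) : Prop :=
  ∃ (L : T.Fld) (h : K ≤ L) (B : T.AV L) (τ : T.M f →ₐ[ℚ] T.C), (T.res h (T.rho f τ) ∩ Set.range (T.W B)).Nonempty

/-- the representations of `f` and `g`, restricted to some number field `L`, have a constituent in common; for example `g` is a
twist of `f` by a character of finite order, a Galois conjugate, or a base change of one of these -/
def Related {K K₁ : T.Fld} (f : T.Form K) (g : T.Form K₁) : Prop :=
  ∃ (L : T.Fld) (h : K ≤ L) (h₁ : K₁ ≤ L) (τ : T.M f →ₐ[ℚ] T.C) (τ₁ : T.M g →ₐ[ℚ] T.C),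
    (T.res h (T.rho f τ) ∩ T.res h₁ (T.rho g τ₁)).Nonempty

/-- `f` is not related to a newform over a totally real field of smaller degree -/
def Primitive {K : T.Fld} (f : T.Form K) : Prop :=
  ∀ (K₁ : T.Fld) (g : T.Form K₁), Related f g → T.deg K ≤ T.deg K₁

variable (T) in
/-- `Q1` of the problem -/
def EichlerShimura : Prop :=
  ∀ (K : T.Fld) (f : T.Form K), Even (T.deg K) → (∀ v, Even (T.lev f v)) → Attached T f

/-- two algebra homomorphisms with the same values on a generating set of fields -/
lemma hom_eq {E C : Type} [Field E] [CharZero E] [Field C] [CharZero C] (φ ψ : E →ₐ[ℚ] C) (s : Set E)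
    (hs : IntermediateField.adjoin ℚ s = ⊤) (h : ∀ x ∈ s, φ x = ψ x) : φ = ψ := by
  have h1 : ∀ x ∈ IntermediateField.adjoin ℚ s, φ x = ψ x := by
    intro x hx
    induction hx using IntermediateField.adjoin_induction with
    | mem x hx => exact h x hx
    | algebraMap x => simp
    | add x y _ _ hx hy => simp [hx, hy]
    | inv x _ hx => simp [hx]
    | mul x y _ _ hx hy => simp [hx, hy]
  ext x
  exact h1 x (by rw [hs]; trivial)

/-- two different embeddings agree on every proper subfield -/
lemma two_embeddings {E C : Type} [Field E] [NumberField E] [Field C] [CharZero C] [IsAlgClosed C]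
    (E₀ : IntermediateField ℚ E) (h : E₀ ≠ ⊤) : ∃ σ σ' : E →ₐ[ℚ] C, σ ≠ σ' ∧ ∀ x ∈ E₀, σ x = σ' x := by
  let σ₀ : E₀ →ₐ[ℚ] C := IsAlgClosed.lift
  let i1 : Algebra E₀ C := σ₀.toRingHom.toAlgebra
  have i2 : IsScalarTower ℚ E₀ C := IsScalarTower.of_algebraMap_eq fun q => by
    simp [RingHom.algebraMap_toAlgebra]
  have hcard : Fintype.card (E →ₐ[E₀] C) = finrank E₀ E := AlgHom.card E₀ E C
  have h2 : finrank E₀ E ≠ 1 := fun h1 => h (IntermediateField.finrank_eq_one_iff_eq_top.1 h1)
  have h3 : 0 < finrank E₀ E := Module.finrank_pos
  obtain ⟨φ, ψ, hφ⟩ := Fintype.one_lt_card_iff.1 (show 1 < Fintype.card (E →ₐ[E₀] C) by omega)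
  refine ⟨φ.restrictScalars ℚ, ψ.restrictScalars ℚ, fun he => hφ ?_, fun x hx => ?_⟩
  · ext x
    exact DFunLike.congr_fun he x
  · have h4 : φ (algebraMap E₀ E ⟨x, hx⟩) = ψ (algebraMap E₀ E ⟨x, hx⟩) := by
      rw [φ.commutes, ψ.commutes]
    exact h4

/-- distinct constituents: the traces of Frobenius at almost all places generate the center -/
lemma gen_center (F : Facts T) {K : T.Fld} (A : T.AV K) (s : Set (T.Pl K)) (hs : s ∈ (cofinite : Filter (T.Pl K))) :
    IntermediateField.adjoin ℚ (T.z A '' s) = ⊤ := by
  by_contra hne
  obtain ⟨σ, σ', hσ, hE⟩ := two_embeddings (C := T.C) _ hne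
  refine hσ (F.faltings A (F.chebotarev _ _ ?_))
  filter_upwards [F.traces A σ, F.traces A σ', hs] with v h1 h2 h3
  rw [h1, h2]
  exact hE _ (IntermediateField.subset_adjoin _ _ ⟨v, h3, rfl⟩)

/-- the representations attached to the conjugates are different -/
lemma rho_injective (F : Facts T) {K : T.Fld} (f : T.Form K) : Function.Injective (T.rho f) := by
  intro τ τ' h
  have h1 := (F.frob_rho f τ).and (F.frob_rho f τ')
  refine hom_eq τ τ' _ (F.multiplicity_one f _ h1) ?_
  rintro x ⟨v, ⟨hv, hv'⟩, rfl⟩
  rw [← hv, ← hv', h]

/-- **Descent, first form.** If a representation attached to `f` is a constituent of a simple abelian variety over `K`, then this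
abelian variety is attached to `f`. -/
theorem attached_of_mem (F : Facts T) {K : T.Fld} (f : T.Form K) (A : T.AV K) (τ₀ : T.M f →ₐ[ℚ] T.C)
    (h : T.rho f τ₀ ∈ Set.range (T.W A)) : Attached T f := by
  obtain ⟨σ₀, hσ₀⟩ := h
  -- the traces
  have htr : ∀ᶠ v in cofinite, σ₀ (T.z A v) = τ₀ (T.a f v) := by
    filter_upwards [F.traces A σ₀, F.frob_rho f τ₀] with v h1 h2
    rw [← h1, ← h2, hσ₀]
  -- the images of the two fields are equal
  have himg : σ₀.fieldRange = τ₀.fieldRange := by
    have e1 : σ₀.fieldRange = IntermediateField.adjoin ℚ ((fun v => σ₀ (T.z A v)) ''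
        {v | σ₀ (T.z A v) = τ₀ (T.a f v)}) := by
      rw [AlgHom.fieldRange_eq_map, ← gen_center F A _ htr, IntermediateField.adjoin_map, Set.image_image]
    have e2 : τ₀.fieldRange = IntermediateField.adjoin ℚ ((fun v => τ₀ (T.a f v)) ''
        {v | σ₀ (T.z A v) = τ₀ (T.a f v)}) := by
      rw [AlgHom.fieldRange_eq_map, ← F.multiplicity_one f _ htr, IntermediateField.adjoin_map, Set.image_image]
    rw [e1, e2]
    congr 1
    apply Set.image_congr
    intro v hv
    exact hv
  let e1 : T.Z A ≃ₐ[ℚ] σ₀.fieldRange := AlgEquiv.ofInjectiveField σ₀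
  let e2 : T.M f ≃ₐ[ℚ] τ₀.fieldRange := AlgEquiv.ofInjectiveField τ₀
  let e : T.Z A ≃ₐ[ℚ] T.M f := (e1.trans (IntermediateField.equivOfEq himg)).trans e2.symm
  have he : ∀ x, τ₀ (e x) = σ₀ x := by
    intro x
    have h1 : e2 (e x) = IntermediateField.equivOfEq himg (e1 x) := e2.apply_symm_apply _
    have h2 := congrArg (fun y : τ₀.fieldRange => (y : T.C)) h1
    exact h2
  have hez : ∀ᶠ v in cofinite, e (T.z A v) = T.a f v := by
    filter_upwards [htr] with v hv
    have h1 : τ₀ (e (T.z A v)) = τ₀ (T.a f v) := by rw [he, hv]
    exact τ₀.toRingHom.injective h1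
  have hW : ∀ τ : T.M f →ₐ[ℚ] T.C, T.W A (τ.comp e.toAlgHom) = T.rho f τ := by
    intro τ
    apply F.chebotarev
    filter_upwards [F.traces A (τ.comp e.toAlgHom), F.frob_rho f τ, hez] with v h1 h2 h3
    rw [h1, h2, ← h3]
    rfl
  have hdeg : finrank ℚ (T.Z A) = finrank ℚ (T.M f) := e.toLinearEquiv.finrank_eq
  -- the dimension
  have hsum : (∑ᶠ σ, T.rk (T.W A σ)) = finrank ℚ (T.Z A) * 2 := by
    have h1 : ∀ σ, T.rk (T.W A σ) = 2 := by
      intro σ
      rw [F.rk_eq A σ σ₀, hσ₀]
      exact F.rk_rho f τ₀
    rw [finsum_eq_sum_of_fintype]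
    rw [Finset.sum_congr rfl (fun σ _ => h1 σ), Finset.sum_const, Finset.card_univ, AlgHom.card ℚ (T.Z A) T.C, smul_eq_mul]
  have hdim : T.dim A = T.ix A * finrank ℚ (T.Z A) := by
    have h1 := F.faltings_dim A
    rw [hsum] at h1
    nlinarith [h1]
  -- the real place
  obtain ⟨H, _, _, hH, hpos⟩ := F.real_place (F.form_real f) A
  have hix : T.ix A = 1 := by
    rw [F.index A, hdim] at hH
    rw [hdim] at hpos
    have hz : 0 < finrank ℚ (T.Z A) := Module.finrank_pos
    have hm : 0 < T.ix A := by
      rcases Nat.eq_zero_or_pos (T.ix A) with h0 | h0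
      · rw [h0] at hpos; simp at hpos
      · exact h0
    have h1 : finrank (T.D A) H * T.ix A = 1 := by
      have h2 : (finrank (T.D A) H * T.ix A) * (T.ix A * finrank ℚ (T.Z A)) = 1 * (T.ix A * finrank ℚ (T.Z A)) := by
        rw [one_mul]
        calc (finrank (T.D A) H * T.ix A) * (T.ix A * finrank ℚ (T.Z A))
            = finrank (T.D A) H * (T.ix A ^ 2 * finrank ℚ (T.Z A)) := by ring
          _ = T.ix A * finrank ℚ (T.Z A) := hH
      exact Nat.eq_of_mul_eq_mul_right (Nat.mul_pos hm hz) h2
    exact Nat.eq_one_of_mul_eq_one_left h1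
  refine ⟨A, ?_, hix, F.faltings A, rho_injective F f, e, hez, hW⟩
  rw [hdim, hix, one_mul, hdeg]

/-- an attached abelian variety has all representations of `f` as constituents -/
lemma mem_of_attached {K : T.Fld} {f : T.Form K} (h : Attached T f) (τ : T.M f →ₐ[ℚ] T.C) :
    ∃ (A : T.AV K) (σ : T.Z A →ₐ[ℚ] T.C), T.W A σ = T.rho f τ := by
  obtain ⟨A, -, -, -, -, e, -, hW⟩ := h
  exact ⟨A, τ.comp e.toAlgHom, hW τ⟩

/-- **Descent.** -/
theorem descent (F : Facts T) {K : T.Fld} (f : T.Form K) (h : PotentiallyAbelian f) : Attached T f := by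
  obtain ⟨L, hL, B, τ, hB⟩ := h
  obtain ⟨A, hA⟩ := F.weil hL B _ hB
  exact attached_of_mem F f A τ hA

/-- related newforms -/
theorem attached_of_related (F : Facts T) {K K₁ : T.Fld} (f : T.Form K) (g : T.Form K₁) (h : Related f g)
    (hg : Attached T g) : Attached T f := by
  obtain ⟨L, hK, hK₁, τ, τ₁, κ, h1, h2⟩ := h
  obtain ⟨A, σ, hA⟩ := mem_of_attached hg τ₁
  rw [← hA] at h2
  obtain ⟨B, hB⟩ := F.extend hK₁ A σ κ h2
  exact descent F f ⟨L, hK, B, τ, κ, h1, hB⟩

/-- the embeddings exist -/
lemma nonempty_hom {K : T.Fld} (f : T.Form K) : Nonempty (T.M f →ₐ[ℚ] T.C) := ⟨IsAlgClosed.lift⟩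

/-- Let `F₀` be a totally real field which is solvable over `ℚ`.
(1) (descent) `f` has an attached abelian variety as soon as for some number field `L` containing `K` and some abelian variety
`B` over `L` a representation of `f`, restricted to `L`, has a constituent in common with `V_ℓ(B)`.  Therefore it has one as soon
as some related newform (over any totally real field) has one.
(2) The Eichler-Shimura conjecture holds iff it holds for the newforms of level one over totally real fields containing `F₀`.
(3) It holds iff it holds for the primitive newforms. -/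
theorem result (F : Facts T) (F₀ : T.Fld) (hF₀ : F₀ ∈ T.TR ∩ T.Solvable) :
    (∀ (K : T.Fld) (f : T.Form K), PotentiallyAbelian f → Attached T f) ∧
    (∀ (K K₁ : T.Fld) (f : T.Form K) (g : T.Form K₁), Related f g → Attached T g → Attached T f) ∧
    (EichlerShimura T ↔ ∀ (K : T.Fld) (f : T.Form K), F₀ ≤ K → (∀ v, T.lev f v = 0) → Attached T f) ∧
    (EichlerShimura T ↔ ∀ (K : T.Fld) (f : T.Form K), Even (T.deg K) → (∀ v, Even (T.lev f v)) → Primitive f →
      Attached T f) := by
  have hall : EichlerShimura T → ∀ (K : T.Fld) (f : T.Form K), Attached T f := by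
    intro hE K f
    by_cases h : Odd (T.deg K) ∨ ∃ v, Odd (T.lev f v)
    · exact F.zhang f h
    · push Not at h
      exact hE K f (Nat.not_odd_iff_even.1 h.1) fun v => Nat.not_odd_iff_even.1 (h.2 v)
  refine ⟨fun K f h => descent F f h, fun K K₁ f g h hg => attached_of_related F f g h hg,
    ⟨fun h K f _ _ => hall h K f, ?_⟩, ⟨fun h K f h1 h2 _ => h K f h1 h2, ?_⟩⟩
  · intro h1 K f _ _
    obtain ⟨K', hK', f', hF₀K, hlev, hbc⟩ := F.base_change F₀ hF₀ f
    have hf' : Attached T f' := by
      by_cases h0 : ∀ v, T.lev f' v = 0
      · exact h1 K' f' hF₀K h0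
      · push Not at h0
        obtain ⟨v, hv⟩ := h0
        have h2 := hlev v
        exact F.zhang f' (Or.inr ⟨v, by rw [show T.lev f' v = 1 by omega]; exact odd_one⟩)
    obtain ⟨τ⟩ := nonempty_hom f
    obtain ⟨τ', hτ'⟩ := hbc τ
    obtain ⟨A, σ, hA⟩ := mem_of_attached hf' τ'
    exact descent F f ⟨K', hK', A, τ, T.rho f' τ', hτ', ⟨σ, hA⟩⟩
  · intro h
    have key : ∀ n : ℕ, ∀ (K : T.Fld) (f : T.Form K), T.deg K = n → Attached T f := by
      intro n
      induction n using Nat.strong_induction_on with
      | _ n ih =>
        intro K f hn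
        by_cases hZ : Odd (T.deg K) ∨ ∃ v, Odd (T.lev f v)
        · exact F.zhang f hZ
        push Not at hZ
        by_cases hP : Primitive f
        · exact h K f (Nat.not_odd_iff_even.1 hZ.1) (fun v => Nat.not_odd_iff_even.1 (hZ.2 v)) hP
        · simp only [Primitive] at hP
          push Not at hP
          obtain ⟨K₁, g, hg, hd⟩ := hP
          exact attached_of_related F f g hg (ih (T.deg K₁) (by omega) K₁ g rfl)
    exact fun K f _ _ => key _ K f rfl

end Pool.Agent.Results.MP_6cbef8_nt.LevelOne
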